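import Pool.Agent.Lib.MP_03e5d0_nt.Top

/-! A positive proportion of the quadratic twists of every modular elliptic curve over the rationals
have analytic rank exactly one. -/

set_option autoImplicit false

namespace Pool.Agent.Results.MP_03e5d0_nt.RankOneModular

open Pool.Agent.Lib.MP_03e5d0_nt

theorem result (a b : ℚ) (hab : 4 * a ^ 3 + 27 * b ^ 2 ≠ 0) (hm : IsModular (twist a b 1)) :
    ∃ c : ℝ, 0 < c ∧ ∃ X₀ : ℝ, ∀ X : ℝ, X₀ ≤ X → c * countS X ≤ countN a b 1 X :=
  main a b hab hm

end Pool.Agent.Results.MP_03e5d0_nt.RankOneModular
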