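import Pool.Agent.Lib.MP_03e5d0_nt.NEl

/-! For the curve `X₀(11)` and its quadratic twists, the proportion of the quadratic twists with
analytic rank at least `r` decays exponentially in `r`. -/

set_option autoImplicit false

namespace Pool.Agent.Results.MP_03e5d0_nt.RankTailEleven

open Pool.Agent.Lib.MP_03e5d0_nt

theorem result (t : ℚ) (ht : t ≠ 0) :
    ∃ rk : ℤ → ℕ, (∀ d : ℤ, d ≠ 0 → HasAnRank (twist (-13392 * t ^ 2) (-1080432 * t ^ 3) d) (rk d)) ∧
      ∃ δ C : ℝ, 0 < δ ∧ ∀ X : ℝ, 2 ≤ X → ∀ r : ℕ,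
        ({d : ℤ | Squarefree d ∧ |(d : ℝ)| < X ∧ r ≤ rk d}.ncard : ℝ) ≤
          C * Real.exp (-(δ * r)) * countS X :=
  tail_eleven ht

end Pool.Agent.Results.MP_03e5d0_nt.RankTailEleven
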