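import Pool.Agent.Lib.MP_03e5d0_nt.ZMain
import Pool.Agent.Lib.MP_03e5d0_nt.EMod

/-! For the curve `X₀(11)` and each of its quadratic twists, at least `X / (log X) ^ α` quadratic twists have
analytic rank zero, for every `α > 3 - 2 √2`. -/

set_option autoImplicit false

namespace Pool.Agent.Results.MP_03e5d0_nt.RankZeroEleven

open Pool.Agent.Lib.MP_03e5d0_nt

theorem result (t : ℚ) (ht : t ≠ 0) (α : ℝ) (hα : 3 - 2 * √2 < α) :
    ∃ X₀ : ℝ, ∀ X : ℝ, X₀ ≤ X →
      X / Real.log X ^ α ≤ countN (-13392 * t ^ 2) (-1080432 * t ^ 3) 0 X :=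
  main0 _ _ (fun h => pow_ne_zero 6 ht
    (by linear_combination h / (4 * (-13392) ^ 3 + 27 * (-1080432) ^ 2)))
    (modular_eleven_twist ht one_ne_zero) α hα

end Pool.Agent.Results.MP_03e5d0_nt.RankZeroEleven
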